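import Mathlib

/-!
# Corner-side swaps do not maximise common words on king's-graph boards

On the `4 × 4` board and for words of all `16` letters, exchanging a non-corner boundary cell with
the interior cell next to it keeps `158224` common words, while every corner-side swap keeps only
`109844`.

Full words are Hamiltonian paths.  Their number is computed from walks: a walk `v₁, …, v₁₆` visits
all sixteen cells iff `2^v₁ + … + 2^v₁₆ = 2^16 - 1`, so it is a coefficient of a generating
polynomial, evaluated at a large power of two.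
-/

namespace Pool.Agent.Results.MP_407208_co.InnerSwap

open Finset

/-! ## Definitions -/

/-- A board: a bijection from the labels to the cells. -/
abbrev Board (n : ℕ) : Type := Fin (n ^ 2) ≃ Fin n × Fin n

/-- King adjacency: distinct cells whose rows and whose columns differ by at most one. -/
def KingAdj {n : ℕ} (p q : Fin n × Fin n) : Prop :=
  p ≠ q ∧ (p.1.val ≤ q.1.val + 1 ∧ q.1.val ≤ p.1.val + 1) ∧
    (p.2.val ≤ q.2.val + 1 ∧ q.2.val ≤ p.2.val + 1)

instance {n : ℕ} (p q : Fin n × Fin n) : Decidable (KingAdj p q) := by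
  unfold KingAdj; infer_instance

/-- The set of `k`-letter words of a board: sequences of distinct labels whose consecutive terms
lie on adjacent cells. -/
def words {n : ℕ} (k : ℕ) (B : Board n) : Set (Fin k → Fin (n ^ 2)) :=
  {a | Function.Injective a ∧
    ∀ (i : ℕ) (h : i + 1 < k), KingAdj (B (a ⟨i, by omega⟩)) (B (a ⟨i + 1, h⟩))}

/-- The number of `k`-letter words in common. -/
noncomputable def common {n : ℕ} (k : ℕ) (B B' : Board n) : ℕ := (words k B ∩ words k B').ncard

/-- Equivalent boards: the same words of every length at least two. -/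
def Equivalent {n : ℕ} (B B' : Board n) : Prop := ∀ k, 2 ≤ k → words k B = words k B'

/-- First or last coordinate. -/
def Extreme {n : ℕ} (a : Fin n) : Prop := a.val = 0 ∨ a.val + 1 = n

instance {n : ℕ} (a : Fin n) : Decidable (Extreme a) := by unfold Extreme; infer_instance

/-- `c` is a corner, `s` is a boundary cell that is not a corner, and they share an edge. -/
def CornerSide {n : ℕ} (c s : Fin n × Fin n) : Prop :=
  (Extreme c.1 ∧ Extreme c.2) ∧ (Extreme s.1 ∨ Extreme s.2) ∧ ¬ (Extreme s.1 ∧ Extreme s.2) ∧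
    ((c.1 = s.1 ∧ (c.2.val + 1 = s.2.val ∨ s.2.val + 1 = c.2.val)) ∨
      (c.2 = s.2 ∧ (c.1.val + 1 = s.1.val ∨ s.1.val + 1 = c.1.val)))

instance {n : ℕ} (c s : Fin n × Fin n) : Decidable (CornerSide c s) := by
  unfold CornerSide; infer_instance

/-- `B'` is a corner-side swap of `B`: the labels in `c` and `s` are exchanged. -/
def IsCornerSideSwap {n : ℕ} (B B' : Board n) : Prop :=
  ∃ c s, CornerSide c s ∧ B' = B.trans (Equiv.swap c s)

/-! ## Counting Hamiltonian paths with one big number -/

/-- The base: the numbers of walks are smaller than this. -/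
def X : ℕ := 2 ^ 65

/-- The pure recursion: total weight of the walks that start next to `v`. -/
def T (H : Fin 16 → Fin 16 → Bool) : ℕ → Fin 16 → ℕ
  | 0, _ => 1
  | n + 1, v => ∑ u : Fin 16, if H v u then X ^ (2 ^ u.val) * T H n u else 0

theorem T_eq (H : Fin 16 → Fin 16 → Bool) (n : ℕ) (v : Fin 16) :
    T H n v = ∑ w : Fin n → Fin 16,
      if (∀ i : Fin n, H ((Fin.cons v w : Fin (n + 1) → Fin 16) i.castSucc) (w i) = true)
      then X ^ (∑ i, 2 ^ (w i).val) else 0 := by
  induction n generalizing v with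
  | zero => simp [T]
  | succ n ih =>
    rw [← (Fin.consEquiv (fun _ : Fin (n + 1) => Fin 16)).sum_comp, Fintype.sum_prod_type]
    simp only [T]
    refine Finset.sum_congr rfl fun u _ => ?_
    by_cases hu : H v u = true
    · rw [if_pos hu, ih u, Finset.mul_sum]
      refine Finset.sum_congr rfl fun w _ => ?_
      have hc : (Fin.consEquiv (fun _ : Fin (n + 1) => Fin 16)) (u, w) =
        (Fin.cons u w : Fin (n + 1) → Fin 16) := rfl
      rw [hc]
      have e : (∀ i : Fin (n + 1), H ((Fin.cons v (Fin.cons u w : Fin (n + 1) → Fin 16) :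
            Fin (n + 1 + 1) → Fin 16) i.castSucc) ((Fin.cons u w : Fin (n + 1) → Fin 16) i) = true) ↔
          (∀ i : Fin n, H ((Fin.cons u w : Fin (n + 1) → Fin 16) i.castSucc) (w i) = true) := by
        rw [Fin.forall_fin_succ]
        constructor
        · rintro ⟨-, h⟩ i
          have := h i
          rwa [Fin.castSucc_succ, Fin.cons_succ, Fin.cons_succ] at this
        · intro h
          refine ⟨hu, fun i => ?_⟩
          rw [Fin.castSucc_succ, Fin.cons_succ, Fin.cons_succ]
          exact h i
      rw [if_congr e rfl rfl]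
      by_cases hw : ∀ i : Fin n, H ((Fin.cons u w : Fin (n + 1) → Fin 16) i.castSucc) (w i) = true
      · rw [if_pos hw, if_pos hw, Fin.sum_univ_succ, Fin.cons_zero, pow_add]
        simp only [Fin.cons_succ]
      · rw [if_neg hw, if_neg hw, mul_zero]
    · rw [if_neg hu]
      symm
      refine Finset.sum_eq_zero fun w _ => ?_
      rw [if_neg]
      intro h
      exact hu (h 0)

/-- The total weight of the walks with sixteen vertices. -/
def Z (H : Fin 16 → Fin 16 → Bool) : ℕ := ∑ v : Fin 16, X ^ (2 ^ v.val) * T H 15 v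

/-- Walks with sixteen vertices. -/
def IsWalk (H : Fin 16 → Fin 16 → Bool) (p : Fin 16 → Fin 16) : Prop :=
  ∀ i : Fin 15, H (p i.castSucc) (p i.succ) = true

instance (H : Fin 16 → Fin 16 → Bool) : DecidablePred (IsWalk H) := by
  intro p; unfold IsWalk; infer_instance

theorem Z_eq (H : Fin 16 → Fin 16 → Bool) :
    Z H = ∑ p ∈ (univ.filter (IsWalk H) : Finset (Fin 16 → Fin 16)), X ^ (∑ i, 2 ^ (p i).val) := by
  rw [Finset.sum_filter, ← (Fin.consEquiv (fun _ : Fin (15 + 1) => Fin 16)).sum_comp,
    Fintype.sum_prod_type]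
  unfold Z
  refine Finset.sum_congr rfl fun v _ => ?_
  rw [T_eq, Finset.mul_sum]
  refine Finset.sum_congr rfl fun w _ => ?_
  have hc : (Fin.consEquiv (fun _ : Fin (15 + 1) => Fin 16)) (v, w) =
    (Fin.cons v w : Fin (15 + 1) → Fin 16) := rfl
  rw [hc]
  have e : (∀ i : Fin 15, H ((Fin.cons v w : Fin (15 + 1) → Fin 16) i.castSucc) (w i) = true) ↔
      IsWalk H (Fin.cons v w : Fin (15 + 1) → Fin 16) := by
    unfold IsWalk
    simp only [Fin.cons_succ]
  rw [if_congr e rfl rfl]
  by_cases hw : IsWalk H (Fin.cons v w : Fin (15 + 1) → Fin 16)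
  · rw [if_pos hw, if_pos hw, Fin.sum_univ_succ (n := 15), Fin.cons_zero, pow_add]
    simp only [Fin.cons_succ]
  · rw [if_neg hw, if_neg hw, mul_zero]

/-- If `m` powers of two (with multiplicities `c`) add up to `2 ^ m - 1` and there are at most `m`
of them, then each of `2 ^ 0, …, 2 ^ (m-1)` occurs exactly once. -/
theorem mult_one (m : ℕ) : ∀ c : ℕ → ℕ, ∑ j ∈ range m, c j ≤ m →
    ∑ j ∈ range m, c j * 2 ^ j + 1 = 2 ^ m → ∀ j < m, c j = 1 := by
  induction m with
  | zero => intro c _ _ j hj; omega
  | succ m ih =>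
    intro c h1 h2 j hj
    rw [Finset.sum_range_succ'] at h1 h2
    simp only [pow_succ, pow_zero, mul_one] at h2
    have h3 : ∑ j ∈ range m, c (j + 1) * (2 ^ j * 2) = 2 * ∑ j ∈ range m, c (j + 1) * 2 ^ j := by
      rw [Finset.mul_sum]
      exact Finset.sum_congr rfl fun j _ => by ring
    rw [h3] at h2
    obtain ⟨t, ht⟩ : ∃ t, c 0 = 2 * t + 1 := by
      refine ⟨c 0 / 2, ?_⟩
      rcases Nat.eq_zero_or_pos m with hm | hm
      · subst hm
        simp at h2
        omega
      · omega
    rcases Nat.eq_zero_or_pos m with hm | hm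
    · subst hm
      simp at h1 h2
      have : j = 0 := by omega
      subst this
      omega
    · -- the multiplicities of `2 ^ (j + 1)`, with the pairs of ones added to the first
      let d : ℕ → ℕ := fun j => if j = 0 then c 1 + t else c (j + 1)
      obtain ⟨k, rfl⟩ : ∃ k, m = k + 1 := ⟨m - 1, by omega⟩
      have e1 : ∑ j ∈ range (k + 1), d j = ∑ j ∈ range (k + 1), c (j + 1) + t := by
        rw [Finset.sum_range_succ', Finset.sum_range_succ' (fun j => c (j + 1))]
        simp [d]
        ring
      have e2 : ∑ j ∈ range (k + 1), d j * 2 ^ j = ∑ j ∈ range (k + 1), c (j + 1) * 2 ^ j + t := by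
        rw [Finset.sum_range_succ', Finset.sum_range_succ' (fun j => c (j + 1) * 2 ^ j)]
        simp [d]
        ring
      have hd := ih d (by omega) (by omega)
      have e3 : ∑ j ∈ range (k + 1), d j = k + 1 := by
        rw [Finset.sum_congr rfl fun j hj => hd j (Finset.mem_range.1 hj)]
        simp
      have ht0 : t = 0 := by omega
      subst ht0
      rcases Nat.eq_zero_or_pos j with hj0 | hj0
      · subst hj0; omega
      · obtain ⟨i, rfl⟩ : ∃ i, j = i + 1 := ⟨j - 1, by omega⟩
        have := hd i (by omega)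
        by_cases hi : i = 0
        · subst hi; simpa [d] using this
        · simpa [d, hi] using this

theorem inj_iff (p : Fin 16 → Fin 16) :
    ∑ i, 2 ^ (p i).val = 65535 ↔ Function.Injective p := by
  constructor
  · intro h
    rw [Finite.injective_iff_surjective]
    let c : ℕ → ℕ := fun j => (univ.filter fun i : Fin 16 => (p i).val = j).card
    have e1 : ∑ j ∈ range 16, c j = 16 := by
      have := Finset.card_eq_sum_card_fiberwise (f := fun i : Fin 16 => (p i).val)
        (s := (univ : Finset (Fin 16))) (t := range 16) (fun i _ => by simp)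
      simpa [c] using this.symm
    have e2 : ∑ j ∈ range 16, c j * 2 ^ j = 65535 := by
      rw [← h]
      have := Finset.sum_fiberwise_of_maps_to (s := (univ : Finset (Fin 16))) (t := range 16)
        (g := fun i : Fin 16 => (p i).val) (fun i _ => by simp) (fun i => 2 ^ (p i).val)
      rw [← this]
      refine Finset.sum_congr rfl fun j _ => ?_
      rw [Finset.sum_congr rfl fun i hi => by rw [(Finset.mem_filter.1 hi).2]]
      simp [c]
    have := mult_one 16 c (by omega) (by rw [e2]; norm_num)
    intro j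
    have hj := this j.val j.isLt
    have : 0 < c j.val := by omega
    obtain ⟨i, hi⟩ := Finset.card_pos.1 this
    exact ⟨i, Fin.ext (Finset.mem_filter.1 hi).2⟩
  · intro h
    have hb : Function.Bijective p := ⟨h, Finite.injective_iff_surjective.1 h⟩
    have := (Equiv.ofBijective p hb).sum_comp (fun j : Fin 16 => 2 ^ j.val)
    simp only [Equiv.ofBijective_apply] at this
    rw [this]
    decide

/-- Reading off one coefficient. -/
theorem coeff {ι : Type} [DecidableEq ι] (S : Finset ι) (s : ι → ℕ) (m : ℕ) (hS : S.card < X) :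
    ((∑ p ∈ S, X ^ s p) % X ^ (m + 1)) / X ^ m = (S.filter fun p => s p = m).card := by
  have hX : 0 < X := by unfold X; positivity
  have hsplit : ∑ p ∈ S, X ^ s p = ∑ p ∈ S.filter (fun p => s p < m), X ^ s p +
      ((S.filter fun p => s p = m).card * X ^ m +
        ∑ p ∈ S.filter (fun p => m < s p), X ^ s p) := by
    have h0 : (S.filter fun p => s p = m).card * X ^ m =
        ∑ p ∈ S.filter (fun p => s p = m), X ^ s p := by
      rw [Finset.sum_congr rfl fun p hp => by rw [(Finset.mem_filter.1 hp).2]]
      simp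
    rw [h0, Finset.sum_filter, Finset.sum_filter, Finset.sum_filter, ← Finset.sum_add_distrib,
      ← Finset.sum_add_distrib]
    refine Finset.sum_congr rfl fun p _ => ?_
    rcases lt_trichotomy (s p) m with h | h | h
    · simp [h, h.ne, h.le.not_gt]
    · simp [h]
    · simp [h, h.ne', h.le.not_gt]
  have hdvd : X ^ (m + 1) ∣ ∑ p ∈ S.filter (fun p => m < s p), X ^ s p :=
    Finset.dvd_sum fun p hp => pow_dvd_pow _ (Finset.mem_filter.1 hp).2
  obtain ⟨q, hq⟩ := hdvd
  have hsmall : ∑ p ∈ S.filter (fun p => s p < m), X ^ s p < X ^ m := by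
    rcases Nat.eq_zero_or_pos m with hm | hm
    · subst hm
      simp
    · calc ∑ p ∈ S.filter (fun p => s p < m), X ^ s p
          ≤ ∑ p ∈ S.filter (fun p => s p < m), X ^ (m - 1) := by
            refine Finset.sum_le_sum fun p hp => Nat.pow_le_pow_right hX ?_
            have := (Finset.mem_filter.1 hp).2
            omega
        _ = (S.filter fun p => s p < m).card * X ^ (m - 1) := by simp
        _ < X * X ^ (m - 1) := by
            refine Nat.mul_lt_mul_of_pos_right (lt_of_le_of_lt ?_ hS) (by positivity)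
            exact Finset.card_le_card (Finset.filter_subset _ _)
        _ = X ^ m := by rw [← pow_succ']; congr 1; omega
  have hc : (S.filter fun p => s p = m).card < X :=
    lt_of_le_of_lt (Finset.card_le_card (Finset.filter_subset _ _)) hS
  rw [hsplit, hq, ← add_assoc, Nat.add_mul_mod_self_left, Nat.mod_eq_of_lt]
  · rw [Nat.add_mul_div_right _ _ (by positivity), Nat.div_eq_of_lt hsmall, zero_add]
  · rw [pow_succ]
    calc _ < X ^ m + (S.filter fun p => s p = m).card * X ^ m := by omega
      _ = ((S.filter fun p => s p = m).card + 1) * X ^ m := by ring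
      _ ≤ X ^ m * X := by rw [mul_comm]; exact Nat.mul_le_mul_left _ hc

/-- Hamiltonian paths of the directed graph `H`. -/
def ham (H : Fin 16 → Fin 16 → Bool) : Finset (Fin 16 → Fin 16) :=
  univ.filter fun p => Function.Injective p ∧ IsWalk H p

theorem card_walks_lt (H : Fin 16 → Fin 16 → Bool) :
    (univ.filter (IsWalk H) : Finset (Fin 16 → Fin 16)).card < X := by
  refine lt_of_le_of_lt (Finset.card_le_univ _) ?_
  rw [Fintype.card_fun, Fintype.card_fin]
  unfold X
  norm_num

theorem ham_eq_filter (H : Fin 16 → Fin 16 → Bool) (m : ℕ) (hm : m = 65535) :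
    ham H = (univ.filter (IsWalk H)).filter fun p => ∑ i, 2 ^ (p i).val = m := by
  ext p
  have h := inj_iff p
  rw [← hm] at h
  unfold ham
  rw [Finset.mem_filter, Finset.mem_filter, Finset.mem_filter, h]
  constructor
  · rintro ⟨h1, h2, h3⟩; exact ⟨⟨h1, h3⟩, h2⟩
  · rintro ⟨⟨h1, h3⟩, h2⟩; exact ⟨h1, h2, h3⟩

theorem card_ham (H : Fin 16 → Fin 16 → Bool) (m : ℕ) (hm : m = 65535) :
    (ham H).card = (Z H % X ^ (m + 1)) / X ^ m := by
  rw [Z_eq, coeff _ _ m (card_walks_lt H), ham_eq_filter H m hm]

/-! ## Evaluation -/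

/-- Evaluate a number before it is used. -/
def force {α : Type} (n : ℕ) (f : ℕ → α) : α := Nat.rec (f 0) (fun m _ => f (m + 1)) n

theorem force_eq {α : Type} (n : ℕ) (f : ℕ → α) : force n f = f n := by
  cases n <;> rfl

/-- Evaluate a list of numbers before it is used. -/
def forceList {α : Type} : List ℕ → (List ℕ → α) → α
  | [], f => f []
  | a :: l, f => force a fun a' => forceList l fun l' => f (a' :: l')

theorem forceList_eq {α : Type} (l : List ℕ) (f : List ℕ → α) : forceList l f = f l := by
  induction l generalizing f with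
  | nil => rfl
  | cons a l ih => simp [forceList, force_eq, ih]

/-- The modulus. -/
def M : ℕ := 2 ^ (65 * 65536)

/-- Multiply the entries by the powers `X ^ (2 ^ u)`. -/
def shiftRow : ℕ → List ℕ → List ℕ
  | _, [] => []
  | u, t :: l => ((t <<< (65 * 2 ^ u)) % M) :: shiftRow (u + 1) l

/-- Sum of the entries selected by a row. -/
def dot : List Bool → List ℕ → ℕ → ℕ
  | b :: r, d :: l, acc => force (if b then acc + d else acc) fun a => dot r l a
  | _, _, acc => acc

/-- One step of the recursion, `n` times. -/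
def iter (rows : List (List Bool)) : ℕ → List ℕ → List ℕ
  | 0, l => l
  | n + 1, l => forceList (shiftRow 0 l) fun d =>
      forceList (rows.map fun r => dot r d 0) fun l' => iter rows n l'

/-- The rows of the adjacency matrix. -/
def rowsOf (H : Fin 16 → Fin 16 → Bool) : List (List Bool) :=
  List.ofFn fun v => List.ofFn fun u => H v u

/-- The number of Hamiltonian paths, as a number the kernel can evaluate. -/
def kron (H : Fin 16 → Fin 16 → Bool) : ℕ :=
  forceList (shiftRow 0 (iter (rowsOf H) 15 (List.replicate 16 1))) fun d =>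
    (dot (List.replicate 16 true) d 0 % M) >>> (65 * 65535)

theorem shiftRow_ofFn {n : ℕ} (t : Fin n → ℕ) (u : ℕ) :
    shiftRow u (List.ofFn t) = List.ofFn fun i => (t i <<< (65 * 2 ^ (u + i.val))) % M := by
  induction n generalizing u with
  | zero => simp [shiftRow]
  | succ n ih =>
    rw [List.ofFn_succ, List.ofFn_succ, shiftRow, ih]
    simp [add_assoc, add_comm 1]

theorem dot_ofFn {n : ℕ} (h : Fin n → Bool) (d : Fin n → ℕ) (acc : ℕ) :
    dot (List.ofFn h) (List.ofFn d) acc = acc + ∑ i, if h i = true then d i else 0 := by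
  induction n generalizing acc with
  | zero => simp [dot]
  | succ n ih =>
    rw [List.ofFn_succ, List.ofFn_succ, dot, force_eq, ih, Fin.sum_univ_succ]
    split_ifs <;> simp [add_assoc]

theorem modEq_sum {ι : Type} [DecidableEq ι] (S : Finset ι) (f g : ι → ℕ) (n : ℕ)
    (h : ∀ i ∈ S, f i ≡ g i [MOD n]) : ∑ i ∈ S, f i ≡ ∑ i ∈ S, g i [MOD n] := by
  induction S using Finset.induction_on with
  | empty => rfl
  | insert a S ha ih =>
    rw [Finset.sum_insert ha, Finset.sum_insert ha]
    exact (h a (Finset.mem_insert_self a S)).add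
      (ih fun i hi => h i (Finset.mem_insert_of_mem hi))

theorem shift_modEq (a b u : ℕ) (h : a ≡ b [MOD M]) :
    (a <<< (65 * 2 ^ u)) % M ≡ X ^ (2 ^ u) * b [MOD M] := by
  have e : X ^ (2 ^ u) = 2 ^ (65 * 2 ^ u) := by
    unfold X
    rw [← pow_mul]
  rw [Nat.shiftLeft_eq, e, mul_comm (2 ^ (65 * 2 ^ u)) b]
  exact (Nat.mod_modEq _ _).trans (h.mul_right _)

theorem iter_spec (H : Fin 16 → Fin 16 → Bool) (n : ℕ) : ∀ (j : ℕ) (t : Fin 16 → ℕ),
    (∀ v, t v ≡ T H j v [MOD M]) →
    ∃ t' : Fin 16 → ℕ, iter (rowsOf H) n (List.ofFn t) = List.ofFn t' ∧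
      ∀ v, t' v ≡ T H (j + n) v [MOD M] := by
  induction n with
  | zero => intro j t ht; exact ⟨t, rfl, ht⟩
  | succ n ih =>
    intro j t ht
    have h1 : ∀ v : Fin 16,
        (∑ u : Fin 16, if H v u = true then (t u <<< (65 * 2 ^ (0 + u.val))) % M else 0) ≡
          T H (j + 1) v [MOD M] := by
      intro v
      rw [T]
      refine modEq_sum _ _ _ _ fun u _ => ?_
      split_ifs
      · rw [zero_add]
        exact shift_modEq _ _ _ (ht u)
      · rfl
    obtain ⟨t', ht', hT⟩ := ih (j + 1) _ h1
    refine ⟨t', ?_, fun v => ?_⟩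
    · rw [← ht', iter, forceList_eq, forceList_eq, shiftRow_ofFn]
      congr 1
      unfold rowsOf
      rw [List.map_ofFn]
      congr 1
      funext v
      rw [Function.comp_apply, dot_ofFn, zero_add]
    · rw [show j + (n + 1) = j + 1 + n by ring]
      exact hT v

theorem M_eq (m : ℕ) (hm : m = 65535) : M = X ^ (m + 1) := by
  have e : 65 * 65536 = 65 * (m + 1) := by omega
  unfold M X
  rw [e, pow_mul]

theorem kron_eq (H : Fin 16 → Fin 16 → Bool) (m : ℕ) (hm : m = 65535) :
    kron H = (ham H).card := by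
  rw [card_ham H m hm, ← M_eq m hm]
  have h0 : List.replicate 16 1 = List.ofFn (fun _ : Fin 16 => 1) := by
    rw [List.ofFn_const]
  have h1 : List.replicate 16 true = List.ofFn (fun _ : Fin 16 => true) := by
    rw [List.ofFn_const]
  obtain ⟨t, ht, hT⟩ := iter_spec H 15 0 (fun _ => 1) (fun v => by rw [T])
  unfold kron
  rw [forceList_eq, h0, h1, ht, shiftRow_ofFn, dot_ofFn, zero_add]
  have h2 : (∑ u : Fin 16, if (true : Bool) = true then (t u <<< (65 * 2 ^ (0 + u.val))) % M else 0)
      ≡ Z H [MOD M] := by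
    unfold Z
    refine modEq_sum _ _ _ _ fun u _ => ?_
    rw [if_pos rfl, zero_add]
    exact shift_modEq _ _ _ (hT u)
  have e : 65 * 65535 = 65 * m := by omega
  rw [h2, Nat.shiftRight_eq_div_pow, e, pow_mul]
  rfl

/-- The king's graph on sixteen cells after a permutation of the cells. -/
def pairAdj (τ : Equiv.Perm (Fin 4 × Fin 4)) (u v : Fin 16) : Bool :=
  let p := finProdFinEquiv.symm u
  let q := finProdFinEquiv.symm v
  decide (KingAdj p q) && decide (KingAdj (τ p) (τ q))

theorem inner_count : kron (pairAdj (Equiv.swap (0, 1) (1, 1))) = 158224 := by decide +kernel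

theorem side_count : kron (pairAdj (Equiv.swap (0, 0) (0, 1))) = 109844 := by decide +kernel

/-! ## Symmetries of the grid -/

/-- The eight symmetries of the grid. -/
def sym (a b t : Bool) : Equiv.Perm (Fin 4 × Fin 4) :=
  ((if t then Equiv.prodComm (Fin 4) (Fin 4) else Equiv.refl _).trans
    (Equiv.prodCongr (if a then Fin.revPerm else Equiv.refl _)
      (if b then Fin.revPerm else Equiv.refl _)))

theorem sym_adj : ∀ (a b t : Bool) (p q : Fin 4 × Fin 4),
    KingAdj (sym a b t p) (sym a b t q) ↔ KingAdj p q := by decide +kernel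

theorem corner_sym : ∀ c s : Fin 4 × Fin 4, CornerSide c s →
    ∃ a b t : Bool, sym a b t (0, 0) = c ∧ sym a b t (0, 1) = s := by decide +kernel

theorem pairAdj_iff (τ : Equiv.Perm (Fin 4 × Fin 4)) (u v : Fin 16) :
    pairAdj τ u v = true ↔ KingAdj (finProdFinEquiv.symm u : Fin 4 × Fin 4) (finProdFinEquiv.symm v) ∧
      KingAdj (τ (finProdFinEquiv.symm u)) (τ (finProdFinEquiv.symm v)) := by
  simp [pairAdj]

/-- The common words of `B` and the board with permuted cells are the Hamiltonian paths of the
common graph. -/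
theorem common_eq (B : Board 4) (τ : Equiv.Perm (Fin 4 × Fin 4)) :
    common 16 B (B.trans τ) = (ham (pairAdj τ)).card := by
  let Φ : (Fin 16 → Fin (4 ^ 2)) ≃ (Fin 16 → Fin 16) :=
    Equiv.arrowCongr (Equiv.refl _) (B.trans finProdFinEquiv)
  unfold common
  rw [← Set.ncard_image_of_injective _ Φ.injective, ← Set.ncard_coe_finset]
  congr 1
  ext p
  rw [Set.mem_image_equiv]
  have hΦ : ∀ i, B (Φ.symm p i) = finProdFinEquiv.symm (p i) := by
    intro i
    simp [Φ, Equiv.arrowCongr]
  have hinj : Function.Injective (Φ.symm p) ↔ Function.Injective p := by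
    constructor
    · intro h i j hij
      apply h
      apply B.injective
      rw [hΦ, hΦ, hij]
    · intro h i j hij
      apply h
      have := congrArg B hij
      rw [hΦ, hΦ] at this
      exact finProdFinEquiv.symm.injective this
  simp only [words, Set.mem_inter_iff, Set.mem_ofPred_eq, Equiv.trans_apply, hΦ, hinj, ham,
    Finset.coe_filter, Finset.mem_univ, true_and, IsWalk, pairAdj_iff]
  constructor
  · rintro ⟨⟨h1, h2⟩, -, h3⟩
    exact ⟨h1, fun i => ⟨h2 i.val (by omega), h3 i.val (by omega)⟩⟩
  · rintro ⟨h1, h2⟩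
    exact ⟨⟨h1, fun i h => (h2 ⟨i, by omega⟩).1⟩, h1, fun i h => (h2 ⟨i, by omega⟩).2⟩

/-- Conjugate permutations keep the same number of words. -/
theorem ham_conj (σ τ : Equiv.Perm (Fin 4 × Fin 4))
    (hσ : ∀ p q : Fin 4 × Fin 4, KingAdj (σ p) (σ q) ↔ KingAdj p q) :
    (ham (pairAdj (σ * τ * σ⁻¹))).card = (ham (pairAdj τ)).card := by
  symm
  have hs : ∀ x, σ⁻¹ (σ x) = x := fun x => σ.symm_apply_apply x
  let e : Fin 16 ≃ Fin 16 := (finProdFinEquiv.symm.trans σ).trans finProdFinEquiv
  have he : ∀ u, (finProdFinEquiv.symm (e u) : Fin 4 × Fin 4) = σ (finProdFinEquiv.symm u) := by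
    intro u
    simp [e]
  refine Finset.card_bij (fun p _ => fun i => e (p i)) ?_ ?_ ?_
  · intro p hp
    simp only [ham, Finset.mem_filter, Finset.mem_univ, true_and, IsWalk, pairAdj_iff] at hp ⊢
    refine ⟨fun i j hij => hp.1 (e.injective hij), fun i => ?_⟩
    obtain ⟨h1, h2⟩ := hp.2 i
    rw [he, he]
    refine ⟨(hσ _ _).2 h1, ?_⟩
    simp only [Equiv.Perm.mul_apply, hs]
    exact (hσ _ _).2 h2
  · intro p _ q _ h
    funext i
    exact e.injective (congrFun h i)
  · intro q hq
    simp only [ham, Finset.mem_filter, Finset.mem_univ, true_and, IsWalk, pairAdj_iff] at hq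
    have hq' : ∀ u, (finProdFinEquiv.symm u : Fin 4 × Fin 4) =
        σ (finProdFinEquiv.symm (e.symm u)) := by
      intro u
      rw [← he, Equiv.apply_symm_apply]
    refine ⟨fun i => e.symm (q i), ?_, by funext i; simp⟩
    simp only [ham, Finset.mem_filter, Finset.mem_univ, true_and, IsWalk, pairAdj_iff]
    refine ⟨fun i j hij => hq.1 (e.symm.injective hij), fun i => ?_⟩
    obtain ⟨h1, h2⟩ := hq.2 i
    rw [hq' (q i.castSucc), hq' (q i.succ)] at h1 h2
    simp only [Equiv.Perm.mul_apply, hs] at h2
    exact ⟨(hσ _ _).1 h1, (hσ _ _).1 h2⟩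

theorem side_card (c s : Fin 4 × Fin 4) (h : CornerSide c s) :
    (ham (pairAdj (Equiv.swap c s))).card = 109844 := by
  obtain ⟨a, b, t, rfl, rfl⟩ := corner_sym c s h
  rw [Equiv.swap_apply_apply, ham_conj _ _ (sym_adj a b t), ← kron_eq _ 65535 rfl, side_count]

/-- For every `4 × 4` board there is a board that is not equivalent to it and has `158224` of the
`16`-letter words in common with it, while every corner-side swap has only `109844`. -/
theorem main (B : Board 4) : ∃ B' : Board 4, ¬ Equivalent B B' ∧ common 16 B B' = 158224 ∧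
    ∀ B₁ : Board 4, IsCornerSideSwap B B₁ → common 16 B B₁ = 109844 := by
  refine ⟨B.trans (Equiv.swap (0, 1) (1, 1)), ?_, ?_, ?_⟩
  · intro h
    have h2 := h 2 le_rfl
    have hne : B.symm (1, 1) ≠ B.symm (2, 0) := by
      intro h; have := B.symm.injective h; exact absurd this (by decide)
    have hw : (![B.symm (1, 1), B.symm (2, 0)] : Fin 2 → Fin (4 ^ 2)) ∈ words 2 B := by
      refine ⟨?_, ?_⟩
      · intro i j hij
        fin_cases i <;> fin_cases j <;> simp_all
      · intro i hi
        have : i = 0 := by omega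
        subst this
        simp
        decide
    rw [h2] at hw
    have h3 := hw.2 0 (by omega)
    simp only [Equiv.trans_apply] at h3
    have e0 : (![B.symm (1, 1), B.symm (2, 0)] : Fin 2 → Fin (4 ^ 2)) ⟨0, by omega⟩ =
      B.symm (1, 1) := rfl
    have e1 : (![B.symm (1, 1), B.symm (2, 0)] : Fin 2 → Fin (4 ^ 2)) ⟨0 + 1, by omega⟩ =
      B.symm (2, 0) := rfl
    rw [e0, e1, Equiv.apply_symm_apply, Equiv.apply_symm_apply] at h3
    exact absurd h3 (by decide)
  · rw [common_eq, ← kron_eq _ 65535 rfl, inner_count]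
  · rintro B₁ ⟨c, s, hcs, rfl⟩
    rw [common_eq, side_card c s hcs]

/-- **Negative answer to Q1.** On `4 × 4` boards and for words of `k = 16` letters a corner-side
swap never attains the maximum over the non-equivalent boards. -/
theorem result :
    (∀ B : Board 4, ∃ B' : Board 4, ¬ Equivalent B B' ∧ common 16 B B' = 158224 ∧
      ∀ B₁ : Board 4, IsCornerSideSwap B B₁ → common 16 B B₁ = 109844) ∧
    ¬ ∀ n k : ℕ, 4 ≤ n → 2 ≤ k → ∀ B B₁ B' : Board n, IsCornerSideSwap B B₁ →
      ¬ Equivalent B B' → common k B B' ≤ common k B B₁ := by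
  refine ⟨main, fun h => ?_⟩
  let B : Board 4 := finProdFinEquiv.symm
  obtain ⟨B', h1, h2, h3⟩ := main B
  have h4 := h 4 16 le_rfl (by norm_num) B (B.trans (Equiv.swap (0, 0) (0, 1))) B'
    ⟨(0, 0), (0, 1), by decide, rfl⟩ h1
  rw [h2, h3 _ ⟨(0, 0), (0, 1), by decide, rfl⟩] at h4
  omega

end Pool.Agent.Results.MP_407208_co.InnerSwap
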